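import Pool.Agent.Run7.h583.Fill.D.Area

/-!
# Orientable fillings of the circle, of any genus, have area at least `1.973 π`

`M` is a compact oriented Riemannian surface, of any genus, whose boundary is the circle of length
`2π`; boundary points are not closer in `M` than in the circle. The bound `1.96 π` of the starting
file `AreaAnyGenus` is improved to `1.973 π`; the conjectured bound is `2 π`.

The general theorem of that file says that a function `k` of the plane, given by a certificate,
yields a bound for the area. Here a much finer certificate is used: `218` radii and `76` slopes
instead of `33` and `27`. It was found by an interior point method, and it is checked by integer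
arithmetic: the coefficients are given by cumulative tables, the integrals over the sectors are
enclosed by integers, and for every interval of radii one Boolean test is evaluated by the kernel.
(The best possible value for functions `k` of this kind is about `1.974 π`, by computations.)
-/

set_option autoImplicit false

open MeasureTheory Metric Set InnerProductGeometry

namespace Pool.Agent.Results.MP_ecf18f_gt.AreaAtLeast1973Pi

open Pool.Agent.H241R3.FV Pool.Agent.N526.CP

/-- Every compact oriented Riemannian surface `M`, of any genus, whose boundary is the circle of
length `2π` and in which boundary points `x`, `y` have at least the distance which they have in the
circle (the angle between the unit vectors `x` and `y`), has area at least `1.973 π`. -/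
theorem result (M : Type) [MetricSpace M] [CompactSpace M] (S : OFill 2 M)
    (hS : ∀ x y : Sph 2, angle (x : E 2) (y : E 2) ≤ dist (S.bd x) (S.bd y)) :
    ENNReal.ofReal (1.973 * Real.pi) ≤ S.vol :=
  Pool.Agent.Run7.h583.Fill.D.area M S hS

end Pool.Agent.Results.MP_ecf18f_gt.AreaAtLeast1973Pi
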